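import Pool.Agent.W2helper76.UE.Stm

/-! Piece Z : a maximal constant field. -/

set_option autoImplicit false

namespace Pool.Agent.W2helper17.UE

open Pool.Agent.W2helper76.UE Polynomial
open scoped IntermediateField.algebraAdjoinAdjoin

/-- adjoining an element which is transcendental over the field generated by the family -/
theorem step {K C ι : Type} [Field K] [Field C] [Algebra K C] (b : ι → C)
    (hb : LinearIndependent K b) (x : C)
    (hx : Transcendental (IntermediateField.adjoin K (Set.range b)) x) :
    LinearIndependent (IntermediateField.adjoin K {x}) b := by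
  rw [← LinearIndependent.iff_fractionRing (Algebra.adjoin K {x})]
  rw [linearIndependent_iff']
  intro s g hg i hi
  have hp : ∀ i, ∃ p : K[X], aeval x p = (g i : C) := by
    intro i
    have h0 : (g i : C) ∈ Algebra.adjoin K {x} := (g i).2
    generalize (g i : C) = y at h0
    rw [Algebra.adjoin_singleton_eq_range_aeval] at h0
    exact h0
  choose p hp using hp
  set F := IntermediateField.adjoin K (Set.range b) with hF
  have hbF : ∀ i, b i ∈ F := fun i => IntermediateField.subset_adjoin K _ ⟨i, rfl⟩
  have h1 : aeval x (∑ i ∈ s, (p i).map (algebraMap K F) * Polynomial.C (⟨b i, hbF i⟩ : F)) = 0 := by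
    rw [map_sum, ← hg]
    refine Finset.sum_congr rfl fun i _ => ?_
    rw [map_mul, aeval_map_algebraMap, hp, aeval_C]
    rfl
  have h2 := (transcendental_iff.mp hx) _ h1
  have h3 : p i = 0 := by
    ext k
    have h4 := congrArg (fun q : F[X] => ((q.coeff k : F) : C)) h2
    simp only [finsetSum_coeff, coeff_mul_C, coeff_map, coeff_zero] at h4
    have h5 : ∑ i ∈ s, (p i).coeff k • b i = 0 := by
      have h6 : ((∑ i ∈ s, algebraMap K F ((p i).coeff k) * (⟨b i, hbF i⟩ : F) : F) : C) =
          ∑ i ∈ s, (p i).coeff k • b i := by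
        push_cast
        refine Finset.sum_congr rfl fun i _ => ?_
        rw [Algebra.smul_def]
      rw [← h6, h4]
      rfl
    rw [coeff_zero]
    exact linearIndependent_iff'.mp hb s (fun i => (p i).coeff k) h5 i hi
  have h7 := hp i
  rw [h3, map_zero] at h7
  exact Subtype.ext h7.symm

theorem enlarge : EnlargeStm := by
  intro κ C Γ _ _ _ _ E hE
  obtain ⟨m, -, hm⟩ := zorn_le_nonempty₀ {K : IntermediateField κ C | LWI K E} (by
    intro c hc hch K₀ hK₀
    refine ⟨sSup c, ?_, fun z hz => le_sSup hz⟩
    have hne : c.Nonempty := ⟨K₀, hK₀⟩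
    have := hne.to_subtype
    have hdir : DirectedOn (· ≤ ·) c := hch.directedOn
    have hmem : ∀ y : C, y ∈ sSup c → ∃ K ∈ c, y ∈ K := by
      intro y hy
      rw [sSup_eq_iSup', ← SetLike.mem_coe,
        IntermediateField.coe_iSup_of_directed hdir.directed_val, Set.mem_iUnion] at hy
      obtain ⟨K, hK⟩ := hy
      exact ⟨K.1, K.2, hK⟩
    have hfin : ∀ (s : Finset Γ) (g : Γ → C), (∀ i ∈ s, g i ∈ sSup c) →
        ∃ K ∈ c, ∀ i ∈ s, g i ∈ K := by
      classical
      intro s g
      induction s using Finset.induction_on with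
      | empty => intro _; exact ⟨K₀, hK₀, by simp⟩
      | insert a s _ ih =>
        intro h
        obtain ⟨K, hK, h1⟩ := ih fun i hi => h i (Finset.mem_insert_of_mem hi)
        obtain ⟨K', hK', h2⟩ := hmem _ (h a (Finset.mem_insert_self _ _))
        obtain ⟨K'', hK'', h3, h4⟩ := hdir K hK K' hK'
        refine ⟨K'', hK'', fun i hi => ?_⟩
        rcases Finset.mem_insert.mp hi with rfl | hi
        · exact h4 h2
        · exact h3 (h1 i hi)
    show LinearIndependent _ _
    rw [linearIndependent_iff']
    intro s g hg i hi
    obtain ⟨K, hK, h1⟩ := hfin s (fun i => (g i : C)) (fun i _ => (g i).2)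
    classical
    have h2 := linearIndependent_iff'.mp (hc hK) s
      (fun i => if h : (g i : C) ∈ K then ⟨(g i : C), h⟩ else 0) (by
        rw [← hg]
        refine Finset.sum_congr rfl fun j hj => ?_
        rw [dif_pos (h1 j hj)]
        rfl) i hi
    simp only [dif_pos (h1 i hi)] at h2
    have h3 := congrArg (fun z : K => (z : C)) h2
    exact Subtype.ext h3) ⊥ (by
      show LinearIndependent _ _
      rw [linearIndependent_iff']
      intro s g hg i hi
      have hp : ∀ i, ∃ p : κ, algebraMap κ C p = (g i : C) := by
        intro i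
        exact IntermediateField.mem_bot.mp (g i).2
      choose p hp using hp
      have h2 := linearIndependent_iff'.mp hE s p (by
        rw [← hg]
        refine Finset.sum_congr rfl fun j hj => ?_
        rw [Algebra.smul_def, hp]
        rfl) i hi
      apply Subtype.ext
      rw [← hp, h2, map_zero]
      rfl)
  refine ⟨m, hm.1, fun x => ?_⟩
  by_contra hx
  have h1 := step (fun γ : Γ => E (Multiplicative.ofAdd γ)) hm.1 x (by
    have : Set.range (fun γ : Γ => E (Multiplicative.ofAdd γ)) = Set.range E := by
      ext y; constructor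
      · rintro ⟨γ, rfl⟩; exact ⟨_, rfl⟩
      · rintro ⟨γ, rfl⟩; exact ⟨Multiplicative.toAdd γ, rfl⟩
    rw [this]
    exact hx)
  set m' : IntermediateField κ C := (IntermediateField.adjoin m {x}).restrictScalars κ with hm'
  have h2 : LWI m' E := h1
  have h3 : m ≤ m' := by
    intro y hy
    exact (IntermediateField.adjoin m {x}).algebraMap_mem ⟨y, hy⟩
  have h4 : m' ≤ m := hm.2 h2 h3
  have h5 : x ∈ m := h4 (IntermediateField.mem_adjoin_simple_self m x)
  apply hx
  have h6 : IsAlgebraic (IntermediateField.adjoin m (Set.range E))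
      (algebraMap (IntermediateField.adjoin m (Set.range E)) C
        (algebraMap m _ ⟨x, h5⟩)) := isAlgebraic_algebraMap _
  exact h6

end Pool.Agent.W2helper17.UE
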