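import Pool.Agent.W2helper17.UE.StepB

/-! Piece R : random combinations of logarithms, the theorem for tuples. -/

set_option autoImplicit false

namespace Pool.Agent.W2helper17.UE

open Module Finset Pool.Agent.W2helper76.UE Pool.Agent.Y918.RP

/-- the products `v l * e ^ γ_j` are linearly independent, for all distinct `γ_j` -/
def GoodV (M : ℕ) {L : Type} (v : L → ℂ) : Prop :=
  ∀ γ : Fin M → QB, Function.Injective γ →
    LinearIndependent QB (fun p : L × Fin M => v p.1 * expQ (Multiplicative.ofAdd (γ p.2)))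

/-- the monomials -/
noncomputable def prodFam (D : ℕ) {n : ℕ} (y : Fin n → ℂ) : (Fin n → Fin (D + 1)) → ℂ :=
  fun a => ∏ i, y i ^ (a i : ℕ)

theorem GoodV.comp {M : ℕ} {L L' : Type} {v : L → ℂ} (h : GoodV M v) (f : L' → L)
    (hf : Function.Injective f) : GoodV M (v ∘ f) := by
  intro γ hγ
  exact (h γ hγ).comp (fun p : L' × Fin M => (f p.1, p.2)) (fun p q hpq => by
    obtain ⟨h1, h2⟩ := Prod.ext_iff.mp hpq
    exact Prod.ext (hf h1) h2)

theorem good_of_goodV {M D n : ℕ} {y : Fin n → ℂ} (h : GoodV M (prodFam D y)) : Good M D y := by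
  intro γ hγ hinj
  have h1 := h (fun j => ⟨γ j, Pool.Agent.H301R2.SSE.mem_QB.2 (hγ j)⟩) (fun i j hij => hinj (by
    exact congrArg (fun z : QB => (z : ℂ)) hij))
  have h2 := h1.comp (fun p : Fin M × (Fin n → Fin (D + 1)) => (p.2, p.1)) (fun p q hpq => by
    obtain ⟨h1, h2⟩ := Prod.ext_iff.mp hpq
    exact Prod.ext h2 h1)
  convert h2 using 1
  funext p
  exact mul_comm _ _

theorem goodV_base (M D : ℕ) (y : Fin 0 → ℂ) : GoodV M (prodFam D y) := by
  intro γ hγ
  rw [Fintype.linearIndependent_iff]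
  intro g hg p
  have h5 := Pool.Agent.H340R2.LW.lindemann_weierstrass
      (Finset.univ : Finset ((Fin 0 → Fin (D + 1)) × Fin M))
      (fun p => (γ p.2 : ℂ)) (fun p => (g p : ℂ))
      (fun p _ => Pool.Agent.H301R2.SSE.mem_QB.1 (γ p.2).2)
      (fun p _ => Pool.Agent.H301R2.SSE.mem_QB.1 (g p).2) (by
        intro p _ q _ hpq
        exact Prod.ext (Subsingleton.elim _ _) (hγ (Subtype.ext hpq)))
      (by
        rw [← hg]
        refine Finset.sum_congr rfl fun p _ => ?_
        rw [Algebra.smul_def]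
        have : prodFam D y p.1 = 1 := by simp [prodFam]
        rw [this, one_mul]
        rfl) p (Finset.mem_univ _)
  exact Subtype.ext h5

theorem goodV_step {M D : ℕ} {L : Type} [Fintype L] {v : L → ℂ} (h : GoodV M v) {x : ℂ}
    (hx : ¬ Bad QB expQ M D v x) :
    GoodV M (fun p : L × Fin (D + 1) => v p.1 * x ^ (p.2 : ℕ)) := by
  intro γ hγ
  rw [Fintype.linearIndependent_iff]
  intro g hg p
  have h1 : ∀ i, ∑ l, ∑ j, g ((l, i), j) • (v l * expQ (Multiplicative.ofAdd (γ j))) = 0 := by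
    by_contra hcon
    push Not at hcon
    apply hx
    refine ⟨γ, fun l i j => g ((l, i), j), ?_, hcon⟩
    rw [← hg, Fintype.sum_prod_type, Fintype.sum_prod_type]
  have h2 := Fintype.linearIndependent_iff.1 (h γ hγ) (fun q => g ((q.1, p.1.2), q.2)) (by
    rw [Fintype.sum_prod_type]
    exact h1 p.1.2) (p.1.1, p.2)
  exact h2

theorem goodV_cons {M D n : ℕ} {y : Fin (n + 1) → ℂ} (h : GoodV M (prodFam D (Fin.tail y)))
    (hx : ¬ Bad QB expQ M D (prodFam D (Fin.tail y)) (y 0)) : GoodV M (prodFam D y) := by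
  have h1 := (goodV_step h hx).comp (fun a : Fin (n + 1) → Fin (D + 1) => (Fin.tail a, a 0)) (by
    intro a b hab
    have h1 : Fin.tail a = Fin.tail b := (Prod.ext_iff.mp hab).1
    have h2 : a 0 = b 0 := (Prod.ext_iff.mp hab).2
    rw [← Fin.cons_self_tail a, ← Fin.cons_self_tail b, h1, h2])
  convert h1 using 1
  funext a
  simp only [prodFam, Function.comp]
  rw [Fin.prod_univ_succ, mul_comm]
  rfl

theorem Bad.reindex {M D : ℕ} {L L' : Type} [Fintype L] [Fintype L'] (e : L' ≃ L) {v : L → ℂ}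
    {x : ℂ} (h : Bad QB expQ M D v x) : Bad QB expQ M D (v ∘ e) x := by
  obtain ⟨γ, c, h1, i, h2⟩ := h
  refine ⟨γ, fun l => c (e l), ?_, i, ?_⟩
  · rw [← h1]
    exact Fintype.sum_equiv e _ _ fun l => rfl
  · convert h2 using 1
    exact Fintype.sum_equiv e _ _ fun l => rfl

open Classical in
/-- the grid theorem gives the counting bound -/
theorem count_goodV (hG : GridStm) (M D n : ℕ) : ∃ (k₀ C : ℕ) (δ : ℝ), 0 < δ ∧ ∀ k ≥ k₀,
    ∀ l : Fin n → Fin k → ℂ, (∀ j, LinearIndependent QB (l j)) →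
    ∀ (ζ : Fin n → ℂ) (A : Finset ℚ), A.Nonempty →
    (((Fintype.piFinset fun _ : Fin n => Fintype.piFinset fun _ : Fin k => A).filter fun a =>
      ¬ GoodV M (prodFam D (fun j => ζ j + ∑ i, (a j i : ℂ) * l j i))).card : ℝ) ≤
    C * (A.card : ℝ) ^ ((n : ℝ) * k - δ * k) := by
  induction n with
  | zero =>
    refine ⟨0, 0, 1, one_pos, fun k _ l _ ζ A _ => ?_⟩
    rw [Finset.filter_false_of_mem]
    · simp
    · intro a _
      rw [not_not]
      exact goodV_base M D _
  | succ n ih =>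
    obtain ⟨k₁, C₁, δ₁, hδ₁, ih⟩ := ih
    obtain ⟨G, B, hGB⟩ := hG (Fintype.card (Fin n → Fin (D + 1))) M D
    obtain ⟨k₂, C₂, δ₂, hδ₂, -, hst⟩ := stepB G B
    refine ⟨max k₁ k₂, C₁ + C₂, min δ₁ δ₂, lt_min hδ₁ hδ₂, fun k hk l hl ζ A hA => ?_⟩
    obtain ⟨a, ha⟩ : ∃ a : ℝ, a = (A.card : ℝ) := ⟨_, rfl⟩
    have ha1 : 1 ≤ a := by
      rw [ha]
      exact_mod_cast hA.card_pos
    have ha0 : 0 < a := by linarith
    set XA : Finset (Fin k → ℚ) := Fintype.piFinset fun _ => A with hXA
    have hXAc : (XA.card : ℝ) = a ^ k := by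
      rw [hXA, Fintype.card_piFinset_const, ha]
      push_cast
      rfl
    set Y : Finset (Fin n → Fin k → ℚ) := Fintype.piFinset fun _ => XA with hY
    have hYc : (Y.card : ℝ) = a ^ (k * n) := by
      rw [hY, Fintype.card_piFinset_const]
      push_cast
      rw [hXAc, ← pow_mul]
    set yy : (Fin (n + 1) → Fin k → ℚ) → Fin (n + 1) → ℂ :=
      fun u j => ζ j + ∑ i, (u j i : ℂ) * l j i with hyy
    set Φ := (Fintype.piFinset fun _ : Fin (n + 1) => XA).filter
      (fun u => ¬ GoodV M (prodFam D (yy u))) with hΦ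
    have hfib : Φ.card = ∑ t ∈ Y, (Φ.filter (fun v => Fin.tail v = t)).card := by
      apply Finset.card_eq_sum_card_fiberwise
      intro v hv
      rw [Finset.mem_coe, hΦ, Finset.mem_filter, Fintype.mem_piFinset] at hv
      rw [Finset.mem_coe, hY, Fintype.mem_piFinset]
      exact fun i => hv.1 i.succ
    have hinj : ∀ t, Set.InjOn (fun v : Fin (n + 1) → Fin k → ℚ => v 0)
        (Φ.filter (fun v => Fin.tail v = t) : Finset (Fin (n + 1) → Fin k → ℚ)) := by
      intro t v hv v' hv' hvv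
      rw [Finset.mem_coe, Finset.mem_filter] at hv hv'
      have h1 : v 0 = v' 0 := hvv
      rw [← Fin.cons_self_tail v, ← Fin.cons_self_tail v', hv.2, hv'.2, h1]
    set zz : (Fin n → Fin k → ℚ) → Fin n → ℂ :=
      fun u j => ζ j.succ + ∑ i, (u j i : ℂ) * l j.succ i with hzz
    have htail : ∀ u, Fin.tail (yy u) = zz (Fin.tail u) := fun u => rfl
    have hall : ∀ t ∈ Y, ((Φ.filter (fun v => Fin.tail v = t)).card : ℝ) ≤
        (if ¬ GoodV M (prodFam D (zz t)) then a ^ k else 0) +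
          C₂ * a ^ ((k : ℝ) - δ₂ * k) := by
      intro t _
      by_cases h0 : ¬ GoodV M (prodFam D (zz t))
      · rw [if_pos h0]
        have h1 : (Φ.filter (fun v => Fin.tail v = t)).card ≤ XA.card := by
          refine Finset.card_le_card_of_injOn (fun v => v 0) ?_ (hinj t)
          intro v hv
          rw [Finset.mem_coe, Finset.mem_filter, hΦ, Finset.mem_filter, Fintype.mem_piFinset] at hv
          exact hv.1.1 0
        have h2 : ((Φ.filter (fun v => Fin.tail v = t)).card : ℝ) ≤ a ^ k := by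
          rw [← hXAc]
          exact_mod_cast h1
        have h3 : 0 ≤ C₂ * a ^ ((k : ℝ) - δ₂ * k) := by positivity
        linarith
      · rw [if_neg h0, zero_add]
        push Not at h0
        have hgrid : GridB G B (Bad QB expQ M D (prodFam D (zz t))) := by
          intro x₀ w hw
          let e : Fin (Fintype.card (Fin n → Fin (D + 1))) ≃ (Fin n → Fin (D + 1)) :=
            (Fintype.equivFin _).symm
          obtain ⟨η, hη⟩ := hGB (prodFam D (zz t) ∘ e) x₀ w hw
          exact ⟨η, fun hb => hη (Bad.reindex e hb)⟩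
        have h1 := hst k ((le_max_right _ _).trans hk) A hA _ hgrid
          (fun i => if h : i < k then l 0 ⟨i, h⟩ else 0) (by
            convert hl 0 using 1
            funext i
            exact dif_pos i.2) (ζ 0)
        rw [← ha] at h1
        refine le_trans (Nat.cast_le.2 ?_) h1
        refine Finset.card_le_card_of_injOn (fun v => v 0) ?_ (hinj t)
        intro v hv
        rw [Finset.mem_coe, Finset.mem_filter, hΦ, Finset.mem_filter, Fintype.mem_piFinset] at hv
        rw [Finset.mem_coe, Finset.mem_filter]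
        refine ⟨hv.1.1 0, ?_⟩
        by_contra hcon
        apply hv.1.2
        apply goodV_cons
        · rw [htail, hv.2]
          exact h0
        · rw [htail, hv.2]
          convert hcon using 3
          refine Finset.sum_congr rfl fun i _ => ?_
          rw [dif_pos i.2]
    have ih' := ih k ((le_max_left _ _).trans hk) (fun j => l j.succ) (fun j => hl j.succ)
      (fun j => ζ j.succ) A hA
    rw [← ha] at ih' ⊢
    change ((Y.filter fun t => ¬ GoodV M (prodFam D (zz t))).card : ℝ) ≤ _ at ih'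
    rw [hfib]
    push_cast
    refine (Finset.sum_le_sum hall).trans ?_
    rw [Finset.sum_add_distrib, ← Finset.sum_filter, Finset.sum_const, Finset.sum_const,
      nsmul_eq_mul, nsmul_eq_mul, hYc]
    have e1 : a ^ ((n : ℝ) * k - δ₁ * k) * a ^ k = a ^ (((n : ℝ) + 1) * k - δ₁ * k) := by
      rw [← Real.rpow_natCast a k, ← Real.rpow_add ha0]
      congr 1
      ring
    have e2 : a ^ (k * n) * a ^ ((k : ℝ) - δ₂ * k) = a ^ (((n : ℝ) + 1) * k - δ₂ * k) := by
      rw [← Real.rpow_natCast a (k * n), ← Real.rpow_add ha0]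
      congr 1
      push_cast
      ring
    have h1 : (((Y.filter fun t => ¬ GoodV M (prodFam D (zz t))).card : ℕ) : ℝ) * a ^ k ≤
        C₁ * a ^ (((n : ℝ) + 1) * k - δ₁ * k) := by
      rw [← e1, ← mul_assoc]
      exact mul_le_mul_of_nonneg_right ih' (by positivity)
    have h2 : a ^ (k * n) * (C₂ * a ^ ((k : ℝ) - δ₂ * k)) =
        C₂ * a ^ (((n : ℝ) + 1) * k - δ₂ * k) := by
      rw [← e2]; ring
    rw [h2]
    have h3 : a ^ (((n : ℝ) + 1) * k - δ₁ * k) ≤ a ^ (((n : ℝ) + 1) * k - min δ₁ δ₂ * k) :=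
      Real.rpow_le_rpow_of_exponent_le ha1 (by
        have := mul_le_mul_of_nonneg_right (min_le_left δ₁ δ₂) (Nat.cast_nonneg (α := ℝ) k)
        linarith)
    have h4 : a ^ (((n : ℝ) + 1) * k - δ₂ * k) ≤ a ^ (((n : ℝ) + 1) * k - min δ₁ δ₂ * k) :=
      Real.rpow_le_rpow_of_exponent_le ha1 (by
        have := mul_le_mul_of_nonneg_right (min_le_right δ₁ δ₂) (Nat.cast_nonneg (α := ℝ) k)
        linarith)
    have h5 : (C₁ : ℝ) * a ^ (((n : ℝ) + 1) * k - δ₁ * k) ≤
        C₁ * a ^ (((n : ℝ) + 1) * k - min δ₁ δ₂ * k) :=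
      mul_le_mul_of_nonneg_left h3 (Nat.cast_nonneg _)
    have h6 : (C₂ : ℝ) * a ^ (((n : ℝ) + 1) * k - δ₂ * k) ≤
        C₂ * a ^ (((n : ℝ) + 1) * k - min δ₁ δ₂ * k) :=
      mul_le_mul_of_nonneg_left h4 (Nat.cast_nonneg _)
    linarith

theorem rand (hG : GridStm) : RandStm := by
  classical
  intro M D n
  obtain ⟨k₀, C, δ, hδ, h⟩ := count_goodV hG M D n
  refine ⟨k₀, C, δ, hδ, fun k hk l halg hl ζ A hA => ?_⟩
  refine le_trans (Nat.cast_le.2 (Finset.card_le_card ?_))
    (h k hk l (fun j => li_QB_of_logs (halg j) (hl j)) ζ A hA)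
  intro a ha
  rw [Finset.mem_filter] at ha ⊢
  exact ⟨ha.1, fun hg => ha.2 (good_of_goodV hg)⟩

end Pool.Agent.W2helper17.UE
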