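import Pool.Agent.W2helper76.UE.Stm
import Pool.Agent.Y918.RP.Gel

/-! Piece R : random combinations of logarithms. -/

set_option autoImplicit false

namespace Pool.Agent.W2helper17.UE

open Module Finset Pool.Agent.W2helper76.UE Pool.Agent.Y918.RP
open Pool.Agent.Y918.RT (card_coset idx idx_inl)
open Pool.Agent.Y918.QC (boxk)

/-- the grid property of a predicate -/
def GridB (G B : ℕ) (bd : ℂ → Prop) : Prop :=
  ∀ (x₀ : ℂ) (w : Fin G → Fin B → ℂ), (∀ g, LinearIndependent QB (w g)) →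
    ∃ η : Fin G → Option (Fin B), ¬ bd (x₀ + ∑ g, (η g).elim 0 (w g))

theorem GridB.succ {G B : ℕ} {bd : ℂ → Prop} (h : GridB G B bd) : GridB (G + 1) (B + 1) bd := by
  intro x₀ w hw
  obtain ⟨η, hη⟩ := h x₀ (fun g i => w g.castSucc i.castSucc)
    (fun g => (hw g.castSucc).comp _ (Fin.castSucc_injective B))
  refine ⟨Fin.snoc (α := fun _ => Option (Fin (B + 1))) (fun g => (η g).map Fin.castSucc) none, ?_⟩
  rw [Fin.sum_univ_castSucc]
  simp only [Fin.snoc_castSucc, Fin.snoc_last, Option.elim_none, add_zero]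
  have e : ∀ g, ((η g).map Fin.castSucc).elim 0 (w g.castSucc) =
      (η g).elim 0 (fun i => w g.castSucc i.castSucc) := by
    intro g
    rcases η g with _ | i
    · rfl
    · rfl
  simp only [e]
  exact hη

open Classical in
/-- **One additive step.** -/
theorem stepB (G₀ B₀ : ℕ) : ∃ (k₀ C : ℕ) (δ : ℝ), 0 < δ ∧ δ ≤ 1 / 4 ∧ ∀ k ≥ k₀, ∀ A : Finset ℚ,
    A.Nonempty → ∀ bd : ℂ → Prop, GridB G₀ B₀ bd →
    ∀ X : ℕ → ℂ, LinearIndependent QB (fun i : Fin k => X (i : ℕ)) → ∀ ζ : ℂ,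
    (((Fintype.piFinset fun _ : Fin k => A).filter (fun P : Fin k → ℚ =>
      bd (ζ + ∑ i : Fin k, (P i : ℂ) * X (i : ℕ)))).card : ℝ) ≤
      C * (A.card : ℝ) ^ ((k : ℝ) - δ * k) := by
  obtain ⟨G, hG⟩ : ∃ G, G = G₀ + 1 := ⟨_, rfl⟩
  obtain ⟨B, hB⟩ : ∃ B, B = B₀ + 1 := ⟨_, rfl⟩
  have hG0 : 0 < G := by omega
  have hB0 : 0 < B := by omega
  have hGr : (1 : ℝ) ≤ G := by exact_mod_cast hG0
  have hBr : (1 : ℝ) ≤ B := by exact_mod_cast hB0
  obtain ⟨e, he⟩ : ∃ e : ℝ, e = (1 / (B + 1 : ℝ)) ^ G := ⟨_, rfl⟩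
  have he0 : 0 < e := by rw [he]; positivity
  have he1 : e ≤ 1 := by
    rw [he]
    apply pow_le_one₀ (by positivity)
    rw [div_le_one (by positivity)]
    linarith
  obtain ⟨δ, hδ⟩ : ∃ δ : ℝ, δ = e / (4 * G) := ⟨_, rfl⟩
  have hδ0 : 0 < δ := by rw [hδ]; positivity
  have hδ1 : δ ≤ 1 / 4 := by
    rw [hδ, div_le_iff₀ (by positivity)]
    nlinarith
  refine ⟨G * (2 * B + 1), G * B, δ, hδ0, hδ1, fun k hk A hA bd hbdG X hX ζ => ?_⟩
  obtain ⟨M, hM⟩ : ∃ M, M = k / G := ⟨_, rfl⟩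
  have hGM : G * M ≤ k := by rw [hM]; exact Nat.mul_div_le k G
  have hM2 : 2 * B + 1 ≤ M := by
    rw [hM, Nat.le_div_iff_mul_le hG0, mul_comm]
    exact hk
  have hkM : k < G * (M + 1) := by
    rw [hM]
    exact Nat.lt_mul_div_succ k hG0
  obtain ⟨R, hR⟩ : ∃ R, G * M + R = k := ⟨k - G * M, by omega⟩
  obtain ⟨a, ha⟩ : ∃ a : ℝ, a = (A.card : ℝ) := ⟨_, rfl⟩
  rw [← ha]
  have ha1 : 1 ≤ a := by
    rw [ha]
    exact_mod_cast hA.card_pos
  have ha0 : 0 < a := by linarith
  set bad : (Fin k → ℚ) → Prop := fun P => bd (ζ + ∑ i, (P i : ℂ) * X (i : ℕ)) with hbad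
  set Bd := (Fintype.piFinset fun _ : Fin k => A).filter (fun P => bad P) with hBd
  -- the case of one element
  rcases Nat.lt_or_ge A.card 2 with hA2 | hA2
  · have h1 : A.card = 1 := by
      have := hA.card_pos
      omega
    have h2 : a = 1 := by rw [ha, h1]; norm_num
    have h3 : Bd.card ≤ 1 := by
      refine (Finset.card_le_card (Finset.filter_subset _ _)).trans ?_
      rw [Fintype.card_piFinset_const, h1, one_pow]
    rw [h2, Real.one_rpow, mul_one]
    have h4 : 1 ≤ G * B := Nat.mul_pos hG0 hB0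
    exact_mod_cast h3.trans h4
  have ha2 : 2 ≤ a := by rw [ha]; exact_mod_cast hA2
  obtain ⟨ρ, hρ⟩ : ∃ ρ : ℝ, ρ = (a ^ (M - B))⁻¹ := ⟨_, rfl⟩
  have hac : 1 ≤ a ^ (M - B) := one_le_pow₀ ha1
  have hρ0 : 0 < ρ := by rw [hρ]; positivity
  obtain ⟨θ, hθ⟩ : ∃ θ : ℝ, θ = B * ρ := ⟨_, rfl⟩
  have hθ0 : 0 < θ := by rw [hθ]; positivity
  have hθ1 : θ ≤ 1 := by
    rw [hθ, hρ, ← div_eq_mul_inv, div_le_one (by positivity)]
    have h1 : (B : ℝ) ≤ 2 ^ B := by exact_mod_cast Nat.lt_two_pow_self.le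
    calc (B : ℝ) ≤ 2 ^ B := h1
      _ ≤ a ^ B := pow_le_pow_left₀ (by norm_num) ha2 _
      _ ≤ a ^ (M - B) := pow_le_pow_right₀ ha1 (by omega)
  set XA : Finset (Fin M → ℚ) := Fintype.piFinset fun _ => A with hXA
  have hXAc : (XA.card : ℝ) = a ^ M := by
    rw [hXA, Fintype.card_piFinset_const, ha]
    push_cast
    rfl
  let val : Fin G → (Fin M → ℚ) → ℂ := fun g u => ∑ j, (u j : ℂ) * X (M * (g : ℕ) + (j : ℕ))
  have hXg : ∀ g : Fin G, LinearIndependent QB (fun j : Fin M => X (M * (g : ℕ) + (j : ℕ))) := by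
    intro g
    have h4 : (g : ℕ) + 1 ≤ G := g.2
    have h5 := Nat.mul_le_mul_left M h4
    rw [Nat.mul_add, mul_one, mul_comm M G] at h5
    exact hX.comp (fun j : Fin M => (⟨M * (g : ℕ) + (j : ℕ), by omega⟩ : Fin k)) (fun i j h => by
      have := congrArg Fin.val h
      exact Fin.ext (Nat.add_left_cancel this))
  have hcount : ∀ (g : Fin G) (V : Submodule QB ℂ), Module.Finite QB V → finrank QB V < B →
      ∀ y : ℂ, ((XA.filter (fun u => val g u - y ∈ V)).card : ℝ) ≤ ρ * XA.card := by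
    intro g V hV hVB y
    have h1 : (XA.filter (fun u => val g u - y ∈ V)).card ≤ A.card ^ finrank QB V := by
      rcases (XA.filter (fun u => val g u - y ∈ V)).eq_empty_or_nonempty with h0 | ⟨u₀, hu₀⟩
      · rw [h0]
        simp
      have h2 := card_coset (LV (fun j : Fin M => X (M * (g : ℕ) + (j : ℕ))) V) A u₀
      refine le_trans (Finset.card_le_card ?_)
        (h2.trans (Nat.pow_le_pow_right hA.card_pos (LV_finrank (hXg g) V)))
      intro u hu
      rw [Finset.mem_filter] at hu hu₀ ⊢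
      refine ⟨hu.1, ?_⟩
      rw [mem_LV]
      have h3 := V.sub_mem hu.2 hu₀.2
      have h4 : (val g u - y) - (val g u₀ - y) =
          ∑ j, (((u - u₀) j : ℚ) : ℂ) * X (M * (g : ℕ) + (j : ℕ)) := by
        simp only [val]
        rw [sub_sub_sub_cancel_right, ← Finset.sum_sub_distrib]
        refine Finset.sum_congr rfl fun j _ => ?_
        rw [Pi.sub_apply]
        push_cast
        ring
      rw [h4] at h3
      exact h3
    have h2 : ((XA.filter (fun u => val g u - y ∈ V)).card : ℝ) ≤ a ^ finrank QB V := by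
      rw [ha]
      exact_mod_cast h1
    refine h2.trans ?_
    rw [hXAc, hρ, inv_mul_eq_div, le_div_iff₀ (by positivity), ← pow_add]
    exact pow_le_pow_right₀ ha1 (by omega)
  let E := idx G M R k hR
  let asm : (Fin G → Fin M → ℚ) → (Fin R → ℚ) → (Fin k → ℚ) := fun x y i =>
    Sum.elim (fun p : Fin G × Fin M => x p.1 p.2) y (E.symm i)
  have hasm1 : ∀ x y g j, asm x y (E (Sum.inl (g, j))) = x g j := by
    intro x y g j
    simp [asm]
  have hasm2 : ∀ x y l, asm x y (E (Sum.inr l)) = y l := by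
    intro x y l
    simp [asm]
  let YR : Finset (Fin R → ℚ) := Fintype.piFinset fun _ => A
  let By : (Fin R → ℚ) → Finset (Fin G → Fin M → ℚ) := fun y =>
    (Fintype.piFinset fun _ : Fin G => XA).filter (fun x => bad (asm x y))
  have hfib : Bd.card = ∑ y ∈ YR, (Bd.filter (fun P => (fun l => P (E (Sum.inr l))) = y)).card := by
    apply Finset.card_eq_sum_card_fiberwise
    intro P hP
    have h1 := Fintype.mem_piFinset.1 (Finset.mem_filter.1 hP).1
    exact Fintype.mem_piFinset.2 (fun l => h1 _)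
  have hle1 : ∀ y ∈ YR, (Bd.filter (fun P => (fun l => P (E (Sum.inr l))) = y)).card ≤ (By y).card := by
    intro y _
    apply Finset.card_le_card_of_injOn (fun P g j => P (E (Sum.inl (g, j))))
    · intro P hP
      rw [Finset.mem_coe, Finset.mem_filter, hBd, Finset.mem_filter] at hP
      obtain ⟨⟨h1, h2⟩, h3⟩ := hP
      rw [Fintype.mem_piFinset] at h1
      rw [Finset.mem_coe, Finset.mem_filter, Fintype.mem_piFinset]
      refine ⟨fun g => Fintype.mem_piFinset.2 (fun j => h1 _), ?_⟩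
      have h4 : asm (fun g j => P (E (Sum.inl (g, j)))) y = P := by
        funext i
        obtain ⟨s, rfl⟩ := E.surjective i
        rcases s with ⟨g, j⟩ | l
        · exact hasm1 (fun g j => P (E (Sum.inl (g, j)))) y g j
        · exact (hasm2 (fun g j => P (E (Sum.inl (g, j)))) y l).trans (congrFun h3 l).symm
      rw [h4]
      exact h2
    · intro P hP P' hP' hPP
      rw [Finset.mem_coe, Finset.mem_filter] at hP hP'
      funext i
      obtain ⟨s, rfl⟩ := E.surjective i
      rcases s with ⟨g, j⟩ | l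
      · exact congrFun (congrFun hPP g) j
      · exact congrFun (hP.2.trans hP'.2.symm) l
  have hgrid : GridB G B bd := by
    rw [hG, hB]
    exact hbdG.succ
  have hle2 : ∀ y ∈ YR, ((By y).card : ℝ) ≤ G * θ ^ e * (a ^ M) ^ G := by
    intro y _
    have h0 := boxk B θ hθ0 hθ1 G (fun _ => XA)
      (fun g x => ¬ LinearIndependent QB (fun i : Fin B => val g (x i.succ) - val g (x 0)))
      (by
        intro g
        have h := deg_countF XA (val g) B ρ hρ0.le (fun V hV hV' y' => hcount g V hV hV' y')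
        rw [← hθ] at h
        convert h) (By y) (Finset.filter_subset _ _) (by
        intro x hx hnd hall
        obtain ⟨η, hη⟩ := hgrid (ζ + ∑ i, (asm (fun g => x g 0) y i : ℂ) * X (i : ℕ))
          (fun g i => val g (x g i.succ) - val g (x g 0)) (fun g => not_not.1 (hnd g))
        have h3 := (Finset.mem_filter.1 (hall (fun g => (η g).elim 0 Fin.succ))).2
        revert h3
        have h5 : ∀ x' : Fin G → Fin M → ℚ, ∑ i, (asm x' y i : ℂ) * X (i : ℕ) =
            ∑ g, val g (x' g) + ∑ l, (y l : ℂ) * X (E (Sum.inr l) : ℕ) := by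
          intro x'
          rw [sum_idx hR]
          have h3 : ∀ x l, asm x y (idx G M R k hR (Sum.inr l)) = y l := fun x l => hasm2 x y l
          have h4 : ∀ x g j, asm x y (idx G M R k hR (Sum.inl (g, j))) = x g j :=
            fun x g j => hasm1 x y g j
          simp only [h3, h4]
          rfl
        have h4 : ζ + ∑ i, (asm (fun g => x g ((η g).elim 0 Fin.succ)) y i : ℂ) * X (i : ℕ) =
            ζ + ∑ i, (asm (fun g => x g 0) y i : ℂ) * X (i : ℕ) +
              ∑ g, (η g).elim 0 (fun i => val g (x g i.succ) - val g (x g 0)) := by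
          have e5 := h5 (fun g => x g ((η g).elim 0 Fin.succ))
          have e6 := h5 (fun g => x g 0)
          rw [e5, e6]
          have h6 : ∑ g, val g (x g ((η g).elim 0 Fin.succ)) = ∑ g, val g (x g 0) +
              ∑ g, (η g).elim 0 (fun i => val g (x g i.succ) - val g (x g 0)) := by
            rw [← Finset.sum_add_distrib]
            refine Finset.sum_congr rfl fun g _ => ?_
            rcases η g with _ | i
            · simp
            · simp
          rw [h6]
          ring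
        intro h3
        have h3' : bd (ζ + ∑ i, (asm (fun g => x g ((η g).elim 0 Fin.succ)) y i : ℂ) *
            X (i : ℕ)) := h3
        rw [h4] at h3'
        exact hη h3')
    have h1 : (∏ _g : Fin G, (XA.card : ℝ)) = (a ^ M) ^ G := by
      rw [hXAc, Finset.prod_const, Finset.card_univ, Fintype.card_fin]
    rw [h1, ← he] at h0
    exact h0
  have hYR : (YR.card : ℝ) = a ^ R := by
    rw [Fintype.card_piFinset_const, ha]
    push_cast
    rfl
  have htot : (Bd.card : ℝ) ≤ a ^ R * (G * θ ^ e * (a ^ M) ^ G) := by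
    rw [hfib, ← hYR]
    push_cast
    rw [← nsmul_eq_mul, ← Finset.sum_const]
    refine Finset.sum_le_sum fun y hy => ?_
    exact (Nat.cast_le.2 (hle1 y hy)).trans (hle2 y hy)
  refine htot.trans ?_
  have hθe : θ ^ e ≤ B * a ^ (-((M - B : ℕ) : ℝ) * e) := by
    rw [hθ, Real.mul_rpow (by positivity) hρ0.le]
    have h1 : (B : ℝ) ^ e ≤ B := by
      calc (B : ℝ) ^ e ≤ (B : ℝ) ^ (1 : ℝ) := Real.rpow_le_rpow_of_exponent_le hBr he1
        _ = B := Real.rpow_one _
    have h2 : ρ ^ e = a ^ (-((M - B : ℕ) : ℝ) * e) := by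
      rw [hρ, ← Real.rpow_natCast, ← Real.rpow_neg ha0.le, ← Real.rpow_mul ha0.le]
    rw [h2]
    exact mul_le_mul_of_nonneg_right h1 (Real.rpow_nonneg ha0.le _)
  have h6 : a ^ R * (G * (B * a ^ (-((M - B : ℕ) : ℝ) * e)) * (a ^ M) ^ G) =
      (G * B) * a ^ ((k : ℝ) - ((M - B : ℕ) : ℝ) * e) := by
    have e1 : a ^ ((k : ℝ) - ((M - B : ℕ) : ℝ) * e) =
        a ^ (k : ℝ) * a ^ (-((M - B : ℕ) : ℝ) * e) := by
      rw [← Real.rpow_add ha0]
      congr 1
      ring
    rw [e1, Real.rpow_natCast, ← hR, pow_add, mul_comm G M, pow_mul]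
    ring
  have h7 : δ * k ≤ ((M - B : ℕ) : ℝ) * e := by
    have h8 : (k : ℝ) ≤ 4 * G * ((M - B : ℕ) : ℝ) := by
      have h9 : k ≤ 4 * G * (M - B) := by
        have h10 : M + 1 ≤ 4 * (M - B) := by omega
        calc k ≤ G * (M + 1) := hkM.le
          _ ≤ G * (4 * (M - B)) := Nat.mul_le_mul_left _ h10
          _ = 4 * G * (M - B) := by ring
      exact_mod_cast h9
    rw [hδ, div_mul_eq_mul_div, div_le_iff₀ (by positivity)]
    nlinarith
  calc a ^ R * (G * θ ^ e * (a ^ M) ^ G) ≤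
      a ^ R * (G * (B * a ^ (-((M - B : ℕ) : ℝ) * e)) * (a ^ M) ^ G) := by gcongr
    _ = (G * B) * a ^ ((k : ℝ) - ((M - B : ℕ) : ℝ) * e) := h6
    _ ≤ (G * B) * a ^ ((k : ℝ) - δ * k) := by
        apply mul_le_mul_of_nonneg_left _ (by positivity)
        exact Real.rpow_le_rpow_of_exponent_le ha1 (by linarith)
    _ = _ := by push_cast; rfl


end Pool.Agent.W2helper17.UE
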